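import Pool.Agent.R922.HK.Stm

/-! HK-INJ (MP_6a97ae_co): injectivity of the label, from the window comparison `P_W`. -/

namespace R922.HK

namespace Inj

/-- index with block `x` and label `a` -/
def g (a x : ℕ) : ℕ := T x + (x - a)

theorem g_succ {a x : ℕ} (h : a ≤ x) : g a (x + 1) = g a x + (x + 1) := by
  unfold g; rw [T_succ]; omega

theorem X_g {a x : ℕ} (ha : 1 ≤ a) (h : a ≤ x) : X (g a x) = x := X_block (by omega)

theorem g_al (u : ℕ) : g (al u) (X u) = u := pos_al u

/-- value of the window -/
def hh (N i a m x : ℕ) : ℤ := (A N i (g a x + m) : ℤ) - (A N i (g a x) : ℤ)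

theorem hh_step (hW : P_W) {N i a m x : ℕ} (ha : 1 ≤ a) (h : a ≤ x) :
    hh N i a m x + (min a m : ℕ) ≤ hh N i a m (x + 1) := by
  have h1 := hW N i x a m ha h
  have e1 : T x + (x - a) + (x + 1) = g a (x + 1) := by rw [g_succ h]; rfl
  have e2 : T x + (x - a) + m + (x + 1) = g a (x + 1) + m := by rw [g_succ h]; unfold g; omega
  rw [e1, e2] at h1
  change A N i (g a (x + 1)) + A N i (g a x + m) + min a m ≤
    A N i (g a (x + 1) + m) + A N i (g a x) at h1
  unfold hh
  omega

theorem inj_of_step {a : ℕ} {f : ℕ → ℤ} (hf : ∀ x, a ≤ x → f x < f (x + 1)) {x y : ℕ}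
    (hx : a ≤ x) (hy : a ≤ y) (he : f x = f y) : x = y := by
  have key : ∀ d x, a ≤ x → f x < f (x + (d + 1)) := by
    intro d
    induction d with
    | zero => intro x hx; exact hf x hx
    | succ d ih =>
      intro x hx
      have h1 := ih x hx
      have h2 := hf (x + (d + 1)) (by omega)
      have e : x + (d + 1 + 1) = x + (d + 1) + 1 := by ring
      rw [e]
      exact lt_trans h1 h2
  rcases lt_trichotomy x y with h | h | h
  · obtain ⟨d, hd⟩ := Nat.exists_eq_add_of_lt h
    have := key d x hx
    rw [← add_assoc, ← hd] at this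
    omega
  · exact h
  · obtain ⟨d, hd⟩ := Nat.exists_eq_add_of_lt h
    have := key d y hy
    rw [← add_assoc, ← hd] at this
    omega

/-- conclusion from a strictly increasing function of the block -/
theorem conclude {u v : ℕ} {f : ℕ → ℤ} (hf : ∀ x, al u ≤ x → f x < f (x + 1))
    (hal : al u = al v) (he : f (X u) = f (X v)) : u = v := by
  have h := inj_of_step hf (al_le_X u) (hal ▸ al_le_X v) he
  rw [← g_al u, ← g_al v, hal, h]

theorem hh_X (N i m u : ℕ) : hh N i (al u) m (X u) = (A N i (u + m) : ℤ) - A N i u := by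
  unfold hh; rw [g_al]

end Inj

open Inj

theorem injAA (hW : P_W) : P_injAA := by
  intro N i m s u v hm hu hv hal
  rw [mem_AA] at hu hv
  refine conclude (f := hh N i (al u) m) ?_ hal ?_
  · intro x hx
    have h1 := hh_step hW (N := N) (i := i) (m := m) (al_pos u) hx
    have h2 : 1 ≤ min (al u) m := le_min (al_pos u) hm
    omega
  · rw [hh_X, hal, hh_X]
    omega

theorem injAB (hW : P_W) : P_injAB := by
  intro N i m s u v hu hv hal
  rw [mem_AB] at hu hv
  unfold B at hu hv
  refine conclude (f := fun x => hh N i (al u) m x + X (g (al u) x + m)) ?_ hal ?_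
  · intro x hx
    have h1 := hh_step hW (N := N) (i := i) (m := m) (al_pos u) hx
    rcases Nat.eq_zero_or_pos m with rfl | hm
    · simp only [add_zero]
      rw [X_g (al_pos u) hx, X_g (al_pos u) (le_trans hx (Nat.le_succ x))]
      push_cast
      omega
    · have h2 : 1 ≤ min (al u) m := le_min (al_pos u) hm
      have h3 : X (g (al u) x + m) ≤ X (g (al u) (x + 1) + m) := by
        apply X_mono
        rw [g_succ hx]; omega
      omega
  · rw [hh_X, g_al, hal, hh_X, g_al]
    omega

theorem injBA (hW : P_W) : P_injBA := by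
  intro N i m s u v hm hu hv ha hal
  rw [mem_BA] at hu hv
  unfold B at hu hv
  refine conclude (f := fun x => hh N i (al u) m x - x) ?_ hal ?_
  · intro x hx
    have h1 := hh_step hW (N := N) (i := i) (m := m) (al_pos u) hx
    have h2 : 2 ≤ min (al u) m := le_min ha hm
    push_cast
    omega
  · rw [hh_X, hal, hh_X]
    omega

theorem injBB (hW : P_W) : P_injBB := by
  intro N i m s u v hm hu hv hc hal
  rw [mem_BB] at hu hv
  unfold B at hu hv
  refine conclude (f := fun x => hh N i (al u) m x + X (g (al u) x + m) - x) ?_ hal ?_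
  · intro x hx
    have h1 := hh_step hW (N := N) (i := i) (m := m) (al_pos u) hx
    have hm1 : 1 ≤ min (al u) m := le_min (al_pos u) hm
    have h3 : X (g (al u) x + m) ≤ X (g (al u) (x + 1) + m) := by
      apply X_mono
      rw [g_succ hx]; omega
    by_cases h4 : 2 ≤ al u ∧ 2 ≤ m
    · have h2 : 2 ≤ min (al u) m := le_min h4.1 h4.2
      push_cast
      omega
    · have hpos := al_pos u
      have h5 : X (g (al u) x + m) + 1 ≤ X (g (al u) (x + 1) + m) := by
        rcases (by omega : (m = 1 ∧ 2 ≤ al u) ∨ (m = 1 ∧ al u = 1) ∨ (m = 2 ∧ al u = 1)) with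
          ⟨e, e'⟩ | ⟨e, e'⟩ | ⟨e, e'⟩
        · subst e
          have e1 : g (al u) x + 1 = T x + (x - al u + 1) := by unfold g; omega
          have e2 : g (al u) (x + 1) + 1 = T (x + 1) + (x + 1 - al u + 1) := by unfold g; omega
          rw [e1, e2, X_block (by omega), X_block (by omega)]
        · subst e
          rw [e'] at hx ⊢
          have e1 : g 1 x + 1 = T (x + 1) + 0 := by unfold g; rw [T_succ]; omega
          have e2 : g 1 (x + 1) + 1 = T (x + 2) + 0 := by unfold g; rw [T_succ (x + 1)]; omega
          rw [e1, e2, X_block (by omega), X_block (by omega)]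
        · subst e
          rw [e'] at hx ⊢
          have e1 : g 1 x + 2 = T (x + 1) + 1 := by unfold g; rw [T_succ]; omega
          have e2 : g 1 (x + 1) + 2 = T (x + 2) + 1 := by unfold g; rw [T_succ (x + 1)]; omega
          rw [e1, e2, X_block (by omega), X_block (by omega)]
      push_cast
      omega
  · rw [hh_X, g_al, hal, hh_X, g_al]
    omega

end R922.HK
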